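import Pool.Agent.Helper91.SY.Main
import Pool.Agent.Helper91.SY.Defs

/-!
# Symplectic forms standard at infinity which are invariant under the rotations of one coordinate
-/

set_option autoImplicit false

namespace Pool.Agent.Helper91.SYOLD.CircleSymmetry

open Pool.Agent.Helper91.SYD

/-- A symplectic form on `ℝ^(2n)`, `n ≥ 2`, which is standard at infinity and invariant under all
rotations in the coordinates `(x_i, y_i)`, for one `i`, is the pullback of the standard form by a
compactly supported diffeomorphism. -/
theorem result (n : ℕ) (hn : 2 ≤ n) (i : Fin n) (η : V n → V n [⋀^Fin 2]→L[ℝ] ℝ)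
    (hη : StandardAtInfinity w0 η)
    (hinv : ∀ (θ : ℝ) (x u v : V n), ev (η (rot i θ x)) (rot i θ u) (rot i θ v) = ev (η x) u v) :
    StandardRel w0 η :=
  Pool.Agent.Helper91.SY.headC n hn i η ⟨hη.1.1, hη.1.2, hη.1.3, hη.2⟩ hinv

end Pool.Agent.Helper91.SYOLD.CircleSymmetry
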